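import Pool.Agent.H11.SM.ECT

set_option autoImplicit false

/-! MP_2e6055, module SM (helper11): marks from the boundary cycle; ARC. -/

namespace Pool.Agent.H11.SM

open Pool.Agent.H7.UC Pool.Agent.H74.Tri Pool.Agent.H93.SM Pool.Agent.H11.UC Pool.Agent.H11.Tri

variable {U : Finset Fc}

/-- the edges number `s, …, t - 1` of the boundary cycle from `v0` -/
noncomputable def eArc (U : Finset Fc) (v0 : Vx) (s t : ℕ) : Finset Ed := by
  classical exact (Finset.Ico s t).image (fun m => ed ((nx U)^[m] v0) (bk U ((nx U)^[m] v0)))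

theorem mem_eArc {v0 : Vx} {s t : ℕ} {e : Ed} : e ∈ eArc U v0 s t ↔
    ∃ m, s ≤ m ∧ m < t ∧ ed ((nx U)^[m] v0) (bk U ((nx U)^[m] v0)) = e := by
  classical
  unfold eArc
  rw [Finset.mem_image]
  simp only [Finset.mem_Ico, and_assoc]

theorem ed_bk_inj {v w : Vx} (hv : v ∈ BV U) (hw : w ∈ BV U)
    (h : ed v (bk U v) = ed w (bk U w)) : v = w := by
  obtain ⟨h1, h2 | h2⟩ := (ed_eq_iff _ _ _ _).1 h
  · exact h2.symm
  · exfalso
    have h3 := nx_inwE hv
    have h4 := bk_spec hw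
    have h5 : nx U v = w := h2.symm
    rw [h5, h1] at h3
    exact outE_ne_inwE h4 h3

theorem cyc_ne {v0 : Vx} (h0 : v0 ∈ BV U) {N : ℕ}
    (hinj : ∀ n < N, ∀ n' < N, (nx U)^[n] v0 = (nx U)^[n'] v0 → n = n') {m m' : ℕ} (h1 : m < m')
    (h2 : m' < m + N) : (nx U)^[m] v0 ≠ (nx U)^[m'] v0 := by
  intro h
  have e : (nx U)^[m] ((nx U)^[m' - m] v0) = (nx U)^[m] v0 := by
    rw [← Function.iterate_add_apply, show m + (m' - m) = m' by omega, h]
  have e' := iter_inj (iter_mem h0 _) h0 m e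
  have := hinj (m' - m) (by omega) 0 (by omega) e'
  omega

theorem cyc_red {v0 : Vx} {N : ℕ} (hN : 0 < N)
    (hper : ∀ n, (nx U)^[n + N] v0 = (nx U)^[n] v0) (s n : ℕ) :
    ∃ m, s ≤ m ∧ m < s + N ∧ (nx U)^[m] v0 = (nx U)^[n] v0 := by
  have h2 : ∀ j n, (nx U)^[n + j * N] v0 = (nx U)^[n] v0 := by
    intro j n
    induction j with
    | zero => simp
    | succ j ih =>
      have e : n + (j + 1) * N = (n + j * N) + N := by ring
      rw [e, hper, ih]
  -- `m = s + ((n + s * N - s) % N)`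
  have h3 : s ≤ n + s * N := by nlinarith
  refine ⟨s + (n + s * N - s) % N, by omega, ?_, ?_⟩
  · have := Nat.mod_lt (n + s * N - s) hN
    omega
  · have e1 := Nat.mod_add_div (n + s * N - s) N
    have e2 : n + s * N = (s + (n + s * N - s) % N) + ((n + s * N - s) / N) * N := by
      have : ((n + s * N - s) / N) * N = N * ((n + s * N - s) / N) := by ring
      omega
    have e3 := h2 s n
    rw [e2, h2] at e3
    exact e3

theorem dv_eArc {v0 : Vx} (h0 : v0 ∈ BV U) {N : ℕ}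
    (hinj : ∀ n < N, ∀ n' < N, (nx U)^[n] v0 = (nx U)^[n'] v0 → n = n') {s t : ℕ} (hst : s ≤ t)
    (ht : t ≤ s + N) (v : Vx) : dv (ind (↑(eArc U v0 s t) : Set Ed)) v =
      ind ({(nx U)^[s] v0} : Set Vx) v + ind ({(nx U)^[t] v0} : Set Vx) v := by
  classical
  obtain ⟨d, rfl⟩ := Nat.exists_eq_add_of_le hst
  clear hst
  induction d with
  | zero =>
    rw [Nat.add_zero, two_zmod]
    have : eArc U v0 s s = ∅ := by
      unfold eArc
      simp
    rw [this]
    unfold dv
    rw [ind_not (by simp), ind_not (by simp), ind_not (by simp)]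
    rfl
  | succ d ih =>
    have ih' := ih (by omega)
    have hnm : ed ((nx U)^[s + d] v0) (bk U ((nx U)^[s + d] v0)) ∉ eArc U v0 s (s + d) := by
      intro h
      obtain ⟨m, h1, h2, h3⟩ := mem_eArc.1 h
      exact cyc_ne h0 hinj h2 (by omega) (ed_bk_inj (iter_mem h0 _) (iter_mem h0 _) h3)
    have hind : ind (↑(eArc U v0 s (s + (d + 1))) : Set Ed) = fun e =>
        ind (↑(eArc U v0 s (s + d)) : Set Ed) e +
        ind ({ed ((nx U)^[s + d] v0) (bk U ((nx U)^[s + d] v0))} : Set Ed) e := by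
      funext e
      by_cases he : e = ed ((nx U)^[s + d] v0) (bk U ((nx U)^[s + d] v0))
      · subst he
        rw [ind_mem (Finset.mem_coe.2 (mem_eArc.2 ⟨s + d, by omega, by omega, rfl⟩)),
          ind_not (fun h => hnm (Finset.mem_coe.1 h)), ind_mem (Set.mem_singleton _)]
        rfl
      · rw [ind_not (s := ({ed ((nx U)^[s + d] v0) (bk U ((nx U)^[s + d] v0))} : Set Ed))
          (by simpa using he), add_zero]
        by_cases h : e ∈ eArc U v0 s (s + d)
        · obtain ⟨m, h1, h2, h3⟩ := mem_eArc.1 h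
          rw [ind_mem (Finset.mem_coe.2 h),
            ind_mem (Finset.mem_coe.2 (mem_eArc.2 ⟨m, h1, by omega, h3⟩))]
        · rw [ind_not (fun h' => h (Finset.mem_coe.1 h')), ind_not]
          intro h'
          obtain ⟨m, h1, h2, h3⟩ := mem_eArc.1 (Finset.mem_coe.1 h')
          by_cases hm : m = s + d
          · subst hm
            exact he h3.symm
          · exact h (mem_eArc.2 ⟨m, h1, by omega, h3⟩)
    rw [hind, dv_add, ih', dv_single]
    have e1 : nb ((nx U)^[s + d] v0) (bk U ((nx U)^[s + d] v0)) = (nx U)^[s + (d + 1)] v0 :=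
      (Function.iterate_succ_apply' (nx U) (s + d) v0).symm
    rw [e1]
    have := two_zmod (ind ({(nx U)^[s + d] v0} : Set Vx) v)
    linear_combination this

theorem mono_I {n : ℕ} {I : ℕ → ℕ} (hI : ∀ j < n, I j < I (j + 1)) {i j : ℕ} (hij : i < j)
    (hj : j ≤ n) : I i < I j := by
  obtain ⟨d, rfl⟩ := Nat.exists_eq_add_of_lt hij
  clear hij
  induction d with
  | zero => exact hI i (by omega)
  | succ d ih =>
    have h1 := ih (by omega)
    have h2 := hI (i + d + 1) (by omega)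
    have e : i + (d + 1) + 1 = i + d + 1 + 1 := by omega
    rw [e]
    omega

theorem find_I {I : ℕ → ℕ} : ∀ (n m : ℕ), I 0 ≤ m → m < I n → ∃ j < n, I j ≤ m ∧ m < I (j + 1) := by
  intro n
  induction n with
  | zero => intro m h1 h2; omega
  | succ n ih =>
    intro m h1 h2
    by_cases h : m < I n
    · obtain ⟨j, h3, h4⟩ := ih m h1 h
      exact ⟨j, by omega, h4⟩
    · exact ⟨n, by omega, by omega, h2⟩

/-- Marks from positions on the boundary cycle. -/
theorem exists_marks (hU : IsDom U) {v0 : Vx} (h0 : v0 ∈ BV U) {N : ℕ} (hN : 0 < N)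
    (hper : ∀ n, (nx U)^[n + N] v0 = (nx U)^[n] v0)
    (hinj : ∀ n < N, ∀ n' < N, (nx U)^[n] v0 = (nx U)^[n'] v0 → n = n')
    {n : ℕ} [NeZero n] (I : ℕ → ℕ) (hI : ∀ j < n, I j < I (j + 1)) (hIn : I n = I 0 + N)
    (hone : ∀ j < n, ∃ k, One U ((nx U)^[I j] v0) k) :
    ∃ M : Marks U n, ∀ j : Fin n, M.u j = (nx U)^[I j] v0 ∧
      M.C j = eArc U v0 (I j) (I (j + 1)) := by
  have hn0 : 0 < n := Nat.pos_of_ne_zero (NeZero.ne n)
  have hle : ∀ i j, i ≤ j → j ≤ n → I i ≤ I j := by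
    intro i j h1 h2
    rcases Nat.eq_or_lt_of_le h1 with h | h
    · rw [h]
    · exact (mono_I hI h h2).le
  refine ⟨⟨fun j => (nx U)^[I j] v0, fun j => eArc U v0 (I j) (I (j + 1)), ?_, ?_, ?_, ?_, ?_⟩,
    fun j => ⟨rfl, rfl⟩⟩
  · intro j
    obtain ⟨k, hk⟩ := hone j j.2
    refine ⟨k, hk.1, hk.2.1, hk.2.2, ?_⟩
    rw [mem_eArc]
    exact ⟨I j, le_rfl, hI j j.2, by rw [bk_one hk]⟩
  · intro e
    constructor
    · intro he
      rw [eq_ed e] at he
      obtain ⟨m, hm⟩ := all_edges Pool.Agent.H63.UC.d1b hU h0 he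
      rw [← eq_ed e] at hm
      obtain ⟨m', h1, h2, h3⟩ := cyc_red hN hper (I 0) m
      obtain ⟨j, h4, h5, h6⟩ := find_I n m' h1 (by rw [hIn]; exact h2)
      refine ⟨⟨j, h4⟩, mem_eArc.2 ⟨m', h5, h6, ?_⟩⟩
      rw [h3, hm]
    · rintro ⟨j, hj⟩
      obtain ⟨m, _, _, rfl⟩ := mem_eArc.1 hj
      exact isB_iff'.2 (Or.inr (bk_spec (iter_mem h0 _)))
  · have key : ∀ j l : Fin n, j.val < l.val →
        Disjoint (eArc U v0 (I j) (I (j + 1))) (eArc U v0 (I l) (I (l + 1))) := by
      intro j l hjl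
      rw [Finset.disjoint_left]
      intro e he he'
      obtain ⟨m, h1, h2, h3⟩ := mem_eArc.1 he
      obtain ⟨m', h1', h2', h3'⟩ := mem_eArc.1 he'
      have a1 := hle (j + 1) l (by omega) l.2.le
      have a2 := hle (l + 1) n (by omega) le_rfl
      have a3 := hle 0 j (by omega) j.2.le
      exact cyc_ne h0 hinj (m := m) (m' := m') (by omega) (by omega)
        (ed_bk_inj (iter_mem h0 _) (iter_mem h0 _) (h3.trans h3'.symm))
    intro j l hjl
    have : j.val ≠ l.val := fun h => hjl (Fin.ext h)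
    rcases Nat.lt_or_gt_of_ne this with h | h
    · exact key j l h
    · exact (key l j h).symm
  · intro j v
    have e1 : (nx U)^[I ((j + 1 : Fin n) : ℕ)] v0 = (nx U)^[I (j.val + 1)] v0 := by
      have hv : ((j + 1 : Fin n) : ℕ) = (j.val + 1) % n := by
        rw [Fin.val_add, Fin.val_one', Nat.add_mod_mod]
      rw [hv]
      rcases Nat.eq_or_lt_of_le (Nat.succ_le_of_lt j.2) with h | h
      · have h' : j.val + 1 = n := h
        rw [h', Nat.mod_self, hIn, hper]
      · have h' : j.val + 1 < n := h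
        rw [Nat.mod_eq_of_lt h']
    show dv (ind (↑(eArc U v0 (I j) (I (j + 1))) : Set Ed)) v =
      ind {(nx U)^[I j] v0} v + ind {(nx U)^[I ((j + 1 : Fin n) : ℕ)] v0} v
    rw [e1]
    refine dv_eArc h0 hinj (hI j j.2).le ?_ v
    have a2 := hle (j + 1) n (by omega) le_rfl
    have a3 := hle 0 j (by omega) j.2.le
    omega
  · intro j l hjl
    have key : ∀ j l : Fin n, j.val < l.val → (nx U)^[I j] v0 ≠ (nx U)^[I l] v0 := by
      intro j l hlt
      refine cyc_ne h0 hinj (mono_I hI hlt l.2.le) ?_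
      have a2 := mono_I hI l.2 le_rfl
      have a3 := hle 0 j (by omega) j.2.le
      omega
    have hjl' : (nx U)^[I j] v0 = (nx U)^[I l] v0 := hjl
    by_contra hne
    have : j.val ≠ l.val := fun h => hne (Fin.ext h)
    rcases Nat.lt_or_gt_of_ne this with h | h
    · exact key j l h hjl'
    · exact key l j h hjl'.symm

/-- every boundary vertex is on the cycle -/
theorem on_cycle (hU : IsDom U) {v0 : Vx} (h0 : v0 ∈ BV U) {N : ℕ} (hN : 0 < N)
    (hper : ∀ n, (nx U)^[n + N] v0 = (nx U)^[n] v0) {v : Vx} (hv : v ∈ BV U) (s : ℕ) :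
    ∃ m, s ≤ m ∧ m < s + N ∧ (nx U)^[m] v0 = v := by
  obtain ⟨n, hn⟩ := all_edges Pool.Agent.H63.UC.d1b hU h0 (v := v) (k := bk U v)
    (isB_iff'.2 (Or.inr (bk_spec hv)))
  have := ed_bk_inj hv (iter_mem h0 n) hn
  rw [this]
  exact cyc_red hN hper s n

theorem arc : ARC := by
  intro U a x y w ka kx ky kw hU hka hkx hky hkw hax hay haw hxy hxw hyw
  have h0 : a ∈ BV U := mem_BV_one hka
  obtain ⟨N, hN, hper, hinj⟩ := exists_cycle h0
  have hpos : ∀ v k, One U v k → a ≠ v → ∃ m, 0 < m ∧ m < N ∧ (nx U)^[m] a = v := by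
    intro v k hk hv
    obtain ⟨m, _, h2, h3⟩ := on_cycle hU h0 hN hper (mem_BV_one hk) 0
    refine ⟨m, ?_, by omega, h3⟩
    rcases Nat.eq_zero_or_pos m with h | h
    · subst h
      exact absurd h3 hv
    · exact h
  -- ordered case
  have key : ∀ (i j k : ℕ) (x y w : Vx) (kx ky kw : Fin 3), One U x kx → One U y ky →
      One U w kw → (nx U)^[i] a = x → (nx U)^[j] a = y → (nx U)^[k] a = w → 0 < i → i < j → j < k →
      k < N → ∃ M : Marks U 4, M.u 1 = a ∧ M.u 0 = w ∧ M.u 2 = x ∧ M.u 3 = y := by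
    intro i j k x y w kx ky kw hkx hky hkw ei ej ek h1 h2 h3 h4
    set I : ℕ → ℕ := fun m => match m with
      | 0 => k
      | 1 => N
      | 2 => i + N
      | 3 => j + N
      | _ => k + N with hI
    obtain ⟨M, hM⟩ := exists_marks hU h0 hN hper hinj (n := 4) I (by
      intro m hm
      interval_cases m
      · show k < N; omega
      · show N < i + N; omega
      · show i + N < j + N; omega
      · show j + N < k + N; omega) rfl (by
      intro m hm
      interval_cases m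
      · exact ⟨kw, by show One U ((nx U)^[k] a) kw; rw [ek]; exact hkw⟩
      · refine ⟨ka, ?_⟩
        show One U ((nx U)^[N] a) ka
        have := hper 0
        rw [Nat.zero_add] at this
        rw [this]
        exact hka
      · exact ⟨kx, by show One U ((nx U)^[i + N] a) kx; rw [hper, ei]; exact hkx⟩
      · exact ⟨ky, by show One U ((nx U)^[j + N] a) ky; rw [hper, ej]; exact hky⟩)
    refine ⟨M, ?_, ?_, ?_, ?_⟩
    · rw [(hM 1).1]
      show (nx U)^[N] a = a
      have := hper 0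
      rw [Nat.zero_add] at this
      exact this
    · exact (hM 0).1.trans ek
    · rw [(hM 2).1]; show (nx U)^[i + N] a = x; rw [hper, ei]
    · rw [(hM 3).1]; show (nx U)^[j + N] a = y; rw [hper, ej]
  obtain ⟨i, i1, i2, i3⟩ := hpos x kx hkx hax
  obtain ⟨j, j1, j2, j3⟩ := hpos y ky hky hay
  obtain ⟨k, k1, k2, k3⟩ := hpos w kw hkw haw
  have nij : i ≠ j := fun h => hxy (by rw [← i3, h, j3])
  have nik : i ≠ k := fun h => hxw (by rw [← i3, h, k3])
  have njk : j ≠ k := fun h => hyw (by rw [← j3, h, k3])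
  rcases Nat.lt_or_gt_of_ne nij with a1 | a1 <;> rcases Nat.lt_or_gt_of_ne nik with a2 | a2 <;>
    rcases Nat.lt_or_gt_of_ne njk with a3 | a3
  · obtain ⟨M, b1, b2, b3, b4⟩ := key i j k x y w kx ky kw hkx hky hkw i3 j3 k3 i1 a1 a3 k2
    refine ⟨M, b1, ?_⟩
    rw [b2, b3, b4]; ext z; simp only [Set.mem_insert_iff, Set.mem_singleton_iff]; tauto
  · obtain ⟨M, b1, b2, b3, b4⟩ := key i k j x w y kx kw ky hkx hkw hky i3 k3 j3 i1 a2 a3 j2
    refine ⟨M, b1, ?_⟩
    rw [b2, b3, b4]; ext z; simp only [Set.mem_insert_iff, Set.mem_singleton_iff]; tauto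
  · omega
  · obtain ⟨M, b1, b2, b3, b4⟩ := key k i j w x y kw kx ky hkw hkx hky k3 i3 j3 k1 a2 a1 j2
    refine ⟨M, b1, ?_⟩
    rw [b2, b3, b4]; ext z; simp only [Set.mem_insert_iff, Set.mem_singleton_iff]; tauto
  · obtain ⟨M, b1, b2, b3, b4⟩ := key j i k y x w ky kx kw hky hkx hkw j3 i3 k3 j1 a1 a2 k2
    refine ⟨M, b1, ?_⟩
    rw [b2, b3, b4]; ext z; simp only [Set.mem_insert_iff, Set.mem_singleton_iff]; tauto
  · omega
  · obtain ⟨M, b1, b2, b3, b4⟩ := key j k i y w x ky kw kx hky hkw hkx j3 k3 i3 j1 a3 a2 i2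
    exact ⟨M, b1, by rw [b2, b3, b4]⟩
  · obtain ⟨M, b1, b2, b3, b4⟩ := key k j i w y x kw ky kx hkw hky hkx k3 j3 i3 k1 a3 a1 i2
    refine ⟨M, b1, ?_⟩
    rw [b2, b3, b4]; ext z; simp only [Set.mem_insert_iff, Set.mem_singleton_iff]; tauto

end Pool.Agent.H11.SM
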