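import Pool.Agent.H11.Tri.ArcC
import Pool.Agent.H11.UC.Loop
import Pool.Agent.H93.SM.Iface

set_option autoImplicit false

/-! MP_2e6055, module SM (helper11): ECT. -/

namespace Pool.Agent.H11.SM

open Pool.Agent.H7.UC Pool.Agent.H74.Tri Pool.Agent.H93.SM Pool.Agent.H11.UC Pool.Agent.H11.Tri

variable {U : Finset Fc}

theorem outE_one {v : Vx} {k : Fin 3} (h : One U v k) : outE U v (k + 1) := by
  refine ⟨?_, ?_⟩
  · rw [e11]; exact h.2.2
  · rw [e12]; exact h.1

theorem inwE_one {v : Vx} {k : Fin 3} (h : One U v k) : inwE U v (k + 2) := by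
  refine ⟨?_, ?_⟩
  · rw [e21]; exact h.1
  · rw [e22]; exact h.2.1

theorem mem_BV_one {v : Vx} {k : Fin 3} (h : One U v k) : v ∈ BV U := ⟨k + 1, outE_one h⟩

theorem bk_one {v : Vx} {k : Fin 3} (h : One U v k) : bk U v = k + 1 :=
  outE_unique (bk_spec (mem_BV_one h)) (outE_one h)

theorem one_uniq {v : Vx} {k l : Fin 3} (h : One U v k) (h' : One U v l) : k = l := by
  have : ∀ k l : Fin 3, k = l ∨ l = k + 1 ∨ l = k + 2 := by decide
  rcases this k l with rfl | rfl | rfl
  · rfl
  · exact absurd h'.1 h.2.1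
  · exact absurd h'.1 h.2.2

/-- if the outer faces before and after `v` have different colours, `v` has one face in `U` -/
theorem one_of {v : Vx} {l m : Fin 3} {col : Fc → Bool} (hl : inwE U v l) (hm : outE U v m)
    (h : col (fc v (l + 2)) ≠ col (fc v (m + 1))) : ∃ k, One U v k ∧ l = k + 2 ∧ m = k + 1 := by
  have : ∀ l m : Fin 3, l = m ∨ l = m + 1 ∨ l = m + 2 := by decide
  rcases this l m with rfl | rfl | rfl
  · exact absurd hl (fun h => outE_ne_inwE hm h)
  · refine ⟨m + 2, ⟨hm.2, ?_, ?_⟩, ?_, ?_⟩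
    · rw [e21]
      have := hl.2
      rwa [e12] at this
    · rw [e22]; exact hm.1
    · rw [e22]
    · rw [e21]
  · exfalso
    apply h
    rw [e22]

/-- colour outside the outgoing edge -/
noncomputable def oc (U : Finset Fc) (col : Fc → Bool) (v : Vx) : Bool := col (fc v (bk U v + 1))

theorem bool_per {c : ℕ → Bool} {N : ℕ} (hN : 0 < N) (hper : ∀ n, c (n + N) = c n) (b : Bool)
    (h : ∀ n, c n = b → c (n + 1) = b) (n m : ℕ) (hn : c n = b) : c m = b := by
  have h1 : ∀ j, c (n + j) = b := by
    intro j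
    induction j with
    | zero => exact hn
    | succ j ih => exact h _ ih
  have h2 : ∀ j, c (m + j * N) = c m := by
    intro j
    induction j with
    | zero => simp
    | succ j ih =>
      rw [← ih, ← hper (m + j * N)]
      congr 1
      ring
  rw [← h2 n]
  have h3 : n ≤ m + n * N := by nlinarith
  obtain ⟨j, hj⟩ := Nat.exists_eq_add_of_le h3
  rw [hj]
  exact h1 j

theorem tip_of {v : Vx} {k : Fin 3} {col : Fc → Bool} (h : One U v k)
    (h1 : col (fc v (k + 1)) = true) (h2 : col (fc v (k + 2)) = false) : IsTip U col (v, k) :=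
  ⟨h.1, h.2.1, h.2.2, h1, h2⟩

theorem exit_of {v : Vx} {k : Fin 3} {col : Fc → Bool} (h : One U v k)
    (h1 : col (fc v (k + 1)) = false) (h2 : col (fc v (k + 2)) = true) :
    IsExit U col (nb v k, k) := by
  refine ⟨?_, ?_, ?_, ?_, ?_⟩
  · show fc (nb (nb v k) k) k ∈ U
    rw [nb_nb]; exact h.1
  · show fc (nb v k) (k + 1) ∉ U
    rw [fc_nb1]; exact h.2.2
  · show fc (nb v k) (k + 2) ∉ U
    rw [fc_nb2]; exact h.2.1
  · show col (fc (nb v k) (k + 1)) = true
    rw [fc_nb1]; exact h2
  · show col (fc (nb v k) (k + 2)) = false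
    rw [fc_nb2]; exact h1

theorem of_exit {q : Pos} {col : Fc → Bool} (h : IsExit U col q) :
    One U (nb q.1 q.2) q.2 ∧ col (fc (nb q.1 q.2) (q.2 + 1)) = false ∧
    col (fc (nb q.1 q.2) (q.2 + 2)) = true := by
  obtain ⟨h1, h2, h3, h4, h5⟩ := h
  refine ⟨⟨h1, ?_, ?_⟩, ?_, ?_⟩
  · rw [fc_nb1]; exact h3
  · rw [fc_nb2]; exact h2
  · rw [fc_nb1]; exact h5
  · rw [fc_nb2]; exact h4

theorem of_tip {p : Pos} {col : Fc → Bool} (h : IsTip U col p) : One U p.1 p.2 ∧
    col (fc p.1 (p.2 + 1)) = true ∧ col (fc p.1 (p.2 + 2)) = false :=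
  ⟨⟨h.1, h.2.1, h.2.2.1⟩, h.2.2.2.1, h.2.2.2.2⟩

/-- with a colour change there are a tip and an exit -/
theorem tip_exit {col : Fc → Bool} {v0 : Vx} (h : chg U col v0) :
    (∃ p, IsTip U col p) ∧ ∃ q, IsExit U col q := by
  obtain ⟨k0, g0, g1, g2, hne⟩ := h
  have hone : One U v0 k0 := ⟨g0, g1, g2⟩
  have h0 : v0 ∈ BV U := mem_BV_one hone
  obtain ⟨N, hN, hper, -⟩ := exists_cycle h0
  set a : ℕ → Vx := fun n => (nx U)^[n] v0 with ha
  have hmem : ∀ n, a n ∈ BV U := fun n => iter_mem h0 n
  have hs : ∀ n, a (n + 1) = nx U (a n) := fun n => Function.iterate_succ_apply' _ _ _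
  set c : ℕ → Bool := fun n => oc U col (a n) with hc
  have hcper : ∀ n, c (n + N) = c n := fun n => by
    simp only [hc, ha, hper]
  have hin : ∀ n, inwE U (a (n + 1)) (bk U (a n)) := fun n => by
    rw [hs]; exact nx_inwE (hmem n)
  have hcin : ∀ n, col (fc (a (n + 1)) (bk U (a n) + 2)) = c n := by
    intro n
    rw [hs]
    show col (fc (nb (a n) (bk U (a n))) (bk U (a n) + 2)) = _
    rw [fc_nb2]
    rfl
  have hchg : c (N - 1) ≠ c 0 := by
    have e1 : a (N - 1 + 1) = v0 := by
      have : N - 1 + 1 = 0 + N := by omega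
      rw [this]
      exact hper 0
    have i1 := hin (N - 1)
    have i2 := hcin (N - 1)
    rw [e1] at i1 i2
    have e2 : bk U (a (N - 1)) = k0 + 2 := inwE_unique i1 (inwE_one hone)
    rw [e2, e22] at i2
    have e3 : c 0 = col (fc v0 (k0 + 2)) := by
      show col (fc v0 (bk U v0 + 1)) = _
      rw [bk_one hone, e11]
    rw [← i2, e3]
    exact hne
  have key : ∀ n, c n ≠ c (n + 1) → ∃ k, One U (a (n + 1)) k ∧
      col (fc (a (n + 1)) (k + 1)) = c n ∧ col (fc (a (n + 1)) (k + 2)) = c (n + 1) := by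
    intro n hn
    have hne' : col (fc (a (n + 1)) (bk U (a n) + 2)) ≠
        col (fc (a (n + 1)) (bk U (a (n + 1)) + 1)) := by
      rw [hcin]; exact hn
    obtain ⟨k, hk, e1, e2⟩ := one_of (hin n) (bk_spec (hmem (n + 1))) hne'
    refine ⟨k, hk, ?_, ?_⟩
    · rw [← hcin n, e1, e22]
    · show _ = col (fc (a (n + 1)) (bk U (a (n + 1)) + 1))
      rw [e2, e11]
  constructor
  · by_contra hno
    push Not at hno
    have hstep : ∀ n, c n = true → c (n + 1) = true := by
      intro n hn
      by_contra hcn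
      obtain ⟨k, hk, e1, e2⟩ := key n (by rw [hn]; exact fun h => hcn h.symm)
      exact hno _ (tip_of hk (by rw [e1, hn]) (by rw [e2]; simpa using hcn))
    have h3 := bool_per hN hcper true hstep
    by_cases h4 : c 0 = true
    · exact hchg (by rw [h4]; exact h3 0 _ h4)
    · have h5 : c (N - 1) ≠ true := fun h => h4 (h3 _ 0 h)
      exact hchg (by rw [Bool.eq_false_of_not_eq_true h4, Bool.eq_false_of_not_eq_true h5])
  · by_contra hno
    push Not at hno
    have hstep : ∀ n, c n = false → c (n + 1) = false := by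
      intro n hn
      by_contra hcn
      obtain ⟨k, hk, e1, e2⟩ := key n (by rw [hn]; exact fun h => hcn h.symm)
      exact hno _ (exit_of hk (by rw [e1, hn]) (by rw [e2]; simpa using hcn))
    have h3 := bool_per hN hcper false hstep
    by_cases h4 : c 0 = false
    · exact hchg (by rw [h4]; exact h3 0 _ h4)
    · have h5 : c (N - 1) ≠ false := fun h => h4 (h3 _ 0 h)
      exact hchg (by rw [Bool.eq_true_of_not_eq_false h4, Bool.eq_true_of_not_eq_false h5])

/-- the boundary edges -/
noncomputable def bE (U : Finset Fc) : Finset Ed := by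
  classical exact (BV_finite U).toFinset.image (fun v => ed v (bk U v))

theorem mem_bE {e : Ed} : e ∈ bE U ↔ isB U e := by
  classical
  unfold bE
  rw [Finset.mem_image]
  constructor
  · rintro ⟨v, hv, rfl⟩
    rw [Set.Finite.mem_toFinset] at hv
    exact isB_iff'.2 (Or.inr (bk_spec hv))
  · intro h
    rw [eq_ed e] at h ⊢
    rcases isB_iff'.1 h with h | h
    · refine ⟨nb (e.1, e.2.1, false) e.2.2, ?_, ?_⟩
      · rw [Set.Finite.mem_toFinset]
        exact ⟨_, inwE_nb.2 h⟩
      · have h1 : nb (e.1, e.2.1, false) e.2.2 ∈ BV U := ⟨_, inwE_nb.2 h⟩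
        rw [outE_unique (bk_spec h1) (inwE_nb.2 h), ed_nb]
    · refine ⟨(e.1, e.2.1, false), ?_, ?_⟩
      · rw [Set.Finite.mem_toFinset]
        exact ⟨_, h⟩
      · rw [outE_unique (bk_spec ⟨_, h⟩) h]

/-- boundary edge with outer face of colour `c` -/
def eC (U : Finset Fc) (col : Fc → Bool) (c : Bool) (e : Ed) : Prop :=
  Out U Set.univ col c (lf e) (rf e) ∨ Out U Set.univ col c (rf e) (lf e)

/-- the boundary edges with outer face of colour `c` -/
noncomputable def cE (U : Finset Fc) (col : Fc → Bool) (c : Bool) : Finset Ed := by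
  classical exact (bE U).filter (eC U col c)

theorem eC_isB {col : Fc → Bool} {c : Bool} {e : Ed} (h : eC U col c e) : isB U e := by
  rcases h with h | h
  · exact Or.inl ⟨h.1, h.2.2.1⟩
  · exact Or.inr ⟨h.2.2.1, h.1⟩

theorem mem_cE {col : Fc → Bool} {c : Bool} {e : Ed} : e ∈ cE U col c ↔ eC U col c e := by
  classical
  unfold cE
  rw [Finset.mem_filter, mem_bE]
  exact ⟨fun h => h.2, fun h => ⟨eC_isB h, h⟩⟩

theorem ind_cE (col : Fc → Bool) (c : Bool) :
    ind (↑(cE U col c) : Set Ed) = yy U Set.univ col c := by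
  funext e
  unfold yy
  by_cases h : eC U col c e
  · rw [ind_mem (Finset.mem_coe.2 (mem_cE.2 h))]
    exact (ind_mem (s := {e | Out U Set.univ col c (lf e) (rf e) ∨
      Out U Set.univ col c (rf e) (lf e)}) h).symm
  · rw [ind_not (fun h' => h (mem_cE.1 (Finset.mem_coe.1 h')))]
    exact (ind_not (s := {e | Out U Set.univ col c (lf e) (rf e) ∨
      Out U Set.univ col c (rf e) (lf e)}) h).symm

theorem dv_chg {col : Fc → Bool} (c : Bool) {v : Vx} (h : chg U col v) :
    dv (yy U Set.univ col c) v = 1 := by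
  obtain ⟨k, h0, h1, h2, h3⟩ := h
  have z0 : yy U Set.univ col c (ed v k) = 0 := yy_zero (by
    rintro (h | h)
    · exact h1 h.1
    · exact h2 h.1)
  rw [dv_rot _ v k, z0]
  by_cases hc : col (fc v (k + 1)) = c
  · have hc2 : col (fc v (k + 2)) ≠ c := fun h => h3 (by rw [hc, h])
    have z1 : yy U Set.univ col c (ed v (k + 1)) = 0 := yy_zero (by
      rw [e11, e12]
      rintro (h | h)
      · exact h2 h.1
      · exact hc2 h.2.2.2)
    have z2 : yy U Set.univ col c (ed v (k + 2)) = 1 := yy_one (by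
      rw [e21, e22]
      exact Or.inl ⟨h0, Set.mem_univ _, h1, hc⟩)
    rw [z1, z2]
    rfl
  · have hc2 : col (fc v (k + 2)) = c := by
      cases hx : col (fc v (k + 1)) <;> cases hy : col (fc v (k + 2)) <;> cases c <;>
        simp_all
    have z1 : yy U Set.univ col c (ed v (k + 1)) = 1 := yy_one (by
      rw [e11, e12]
      exact Or.inr ⟨h0, Set.mem_univ _, h2, hc2⟩)
    have z2 : yy U Set.univ col c (ed v (k + 2)) = 0 := yy_zero (by
      rw [e21, e22]
      rintro (h | h)
      · exact hc h.2.2.2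
      · exact h1 h.1)
    rw [z1, z2]
    rfl

theorem dv_not_chg {col : Fc → Bool} (c : Bool) {v : Vx} (h : ¬ chg U col v) :
    dv (yy U Set.univ col c) v = 0 := by
  by_contra hn
  exact h (dv_yy (fun _ _ _ _ _ => Set.mem_univ _) v hn).1

theorem chg_tip {col : Fc → Bool} {p : Pos} (h : IsTip U col p) : chg U col p.1 :=
  ⟨p.2, h.1, h.2.1, h.2.2.1, by
    obtain ⟨_, h1, h2⟩ := of_tip h
    rw [h1, h2]; decide⟩

theorem chg_exit {col : Fc → Bool} {q : Pos} (h : IsExit U col q) : chg U col (nb q.1 q.2) := by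
  obtain ⟨h0, h1, h2⟩ := of_exit h
  exact ⟨q.2, h0.1, h0.2.1, h0.2.2, by rw [h1, h2]; decide⟩

theorem tip_ne_exit {col : Fc → Bool} {p q : Pos} (hp : IsTip U col p) (hq : IsExit U col q) :
    p.1 ≠ nb q.1 q.2 := by
  intro h
  obtain ⟨a0, a1, a2⟩ := of_tip hp
  obtain ⟨b0, b1, b2⟩ := of_exit hq
  rw [← h] at b0 b1 b2
  have := one_uniq a0 b0
  rw [← this, a1] at b1
  exact absurd b1 (by decide)

theorem tip_uniq {col : Fc → Bool} {p p' : Pos} (hp : IsTip U col p) (hp' : IsTip U col p')
    (h : p.1 = p'.1) : p' = p := by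
  obtain ⟨a0, a1, a2⟩ := of_tip hp
  obtain ⟨b0, b1, b2⟩ := of_tip hp'
  rw [← h] at b0
  exact Prod.ext h.symm (one_uniq b0 a0)

theorem exit_uniq {col : Fc → Bool} {p p' : Pos} (hp : IsExit U col p) (hp' : IsExit U col p')
    (h : nb p.1 p.2 = nb p'.1 p'.2) : p' = p := by
  obtain ⟨a0, a1, a2⟩ := of_exit hp
  obtain ⟨b0, b1, b2⟩ := of_exit hp'
  rw [← h] at b0
  have e := one_uniq b0 a0
  refine Prod.ext ?_ e
  have h1 : nb (nb p.1 p.2) p.2 = nb (nb p'.1 p'.2) p'.2 := by rw [e, ← e, ← h, e]
  rw [nb_nb, nb_nb] at h1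
  exact h1.symm

theorem ect : ECT := by
  intro U col hU
  by_cases hex : ∃ v, chg U col v
  · left
    obtain ⟨v0, hv0⟩ := hex
    obtain ⟨⟨p, hp⟩, ⟨q, hq⟩⟩ := tip_exit hv0
    have hne := tip_ne_exit hp hq
    obtain ⟨a0, a1, a2⟩ := of_tip hp
    obtain ⟨b0, b1, b2⟩ := of_exit hq
    have hchg : ∀ v, chg U col v ↔ v = p.1 ∨ v = nb q.1 q.2 := by
      intro v
      constructor
      · intro hv
        rcases hU.two p.1 (nb q.1 q.2) v (chg_tip hp) (chg_exit hq) hv with h | h | h
        · exact absurd h hne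
        · exact Or.inl h.symm
        · exact Or.inr h.symm
      · rintro (rfl | rfl)
        · exact chg_tip hp
        · exact chg_exit hq
    have hdv : ∀ c v, dv (yy U Set.univ col c) v =
        ind ({p.1} : Set Vx) v + ind ({nb q.1 q.2} : Set Vx) v := by
      intro c v
      by_cases h1 : v = p.1
      · subst h1
        rw [dv_chg c (chg_tip hp), ind_mem (Set.mem_singleton _), ind_not (by simpa using hne)]
        rfl
      · by_cases h2 : v = nb q.1 q.2
        · subst h2
          rw [dv_chg c (chg_exit hq), ind_not (by simpa using h1), ind_mem (Set.mem_singleton _)]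
          rfl
        · rw [dv_not_chg c (fun h => by rcases (hchg v).1 h with h | h <;> contradiction),
            ind_not (by simpa using h1), ind_not (by simpa using h2)]
          rfl
    have hC : ∀ e, isB U e → ∀ f, (f = lf e ∨ f = rf e) → f ∉ U → ∀ c,
        (e ∈ cE U col c ↔ col f = c) := by
      intro e he f hf hfU c
      rw [mem_cE]
      rcases hf with rfl | rfl
      · constructor
        · rintro (h | h)
          · exact absurd h.1 hfU
          · exact h.2.2.2
        · intro h
          refine Or.inr ⟨?_, Set.mem_univ _, hfU, h⟩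
          rcases he with he | he
          · exact absurd he.1 hfU
          · exact he.2
      · constructor
        · rintro (h | h)
          · exact h.2.2.2
          · exact absurd h.1 hfU
        · intro h
          refine Or.inl ⟨?_, Set.mem_univ _, hfU, h⟩
          rcases he with he | he
          · exact he.1
          · exact absurd he.2 hfU
    have hout : ∀ v k c, One U v k → col (fc v (k + 2)) = c → ed v (k + 1) ∈ cE U col c := by
      intro v k c hk hc
      rw [mem_cE]
      have := (mem_ed U Set.univ col c v (k + 1)).2 (by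
        rw [e11, e12]
        exact Or.inr ⟨hk.1, Set.mem_univ _, hk.2.2, hc⟩)
      exact this
    refine ⟨⟨![p.1, nb q.1 q.2], ![cE U col false, cE U col true], ?_, ?_, ?_, ?_, ?_⟩, p, q, hp, hq,
      rfl, rfl, ?_, ?_, ?_⟩
    · intro j
      fin_cases j
      · exact ⟨p.2, a0.1, a0.2.1, a0.2.2, hout _ _ _ a0 a2⟩
      · exact ⟨q.2, b0.1, b0.2.1, b0.2.2, hout _ _ _ b0 b2⟩
    · intro e
      constructor
      · intro he
        have : ∃ f, (f = lf e ∨ f = rf e) ∧ f ∉ U := by
          rcases he with he | he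
          · exact ⟨_, Or.inr rfl, he.2⟩
          · exact ⟨_, Or.inl rfl, he.1⟩
        obtain ⟨f, hf, hfU⟩ := this
        cases hc : col f
        · exact ⟨0, (hC e he f hf hfU false).2 hc⟩
        · exact ⟨1, (hC e he f hf hfU true).2 hc⟩
      · rintro ⟨j, hj⟩
        fin_cases j
        · exact eC_isB (mem_cE.1 hj)
        · exact eC_isB (mem_cE.1 hj)
    · have hd : Disjoint (cE U col false) (cE U col true) := by
        rw [Finset.disjoint_left]
        intro e he he'
        have hb := eC_isB (mem_cE.1 he)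
        have : ∃ f, (f = lf e ∨ f = rf e) ∧ f ∉ U := by
          rcases hb with he | he
          · exact ⟨_, Or.inr rfl, he.2⟩
          · exact ⟨_, Or.inl rfl, he.1⟩
        obtain ⟨f, hf, hfU⟩ := this
        have h1 := (hC e hb f hf hfU false).1 he
        have h2 := (hC e hb f hf hfU true).1 he'
        rw [h1] at h2
        exact absurd h2 (by decide)
      intro j l hjl
      fin_cases j <;> fin_cases l
      · exact absurd rfl hjl
      · exact hd
      · exact hd.symm
      · exact absurd rfl hjl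
    · intro j v
      fin_cases j
      · show dv (ind (↑(cE U col false) : Set Ed)) v = ind {p.1} v + ind {nb q.1 q.2} v
        rw [ind_cE, hdv]
      · show dv (ind (↑(cE U col true) : Set Ed)) v = ind {nb q.1 q.2} v + ind {p.1} v
        rw [ind_cE, hdv, add_comm]
    · intro j l hjl
      fin_cases j <;> fin_cases l
      · rfl
      · exact absurd hjl hne
      · exact absurd hjl.symm hne
      · rfl
    · intro p' hp'
      rcases (hchg p'.1).1 (chg_tip hp') with h | h
      · exact tip_uniq hp hp' h.symm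
      · exact absurd h (tip_ne_exit hp' hq)
    · intro q' hq'
      rcases (hchg _).1 (chg_exit hq') with h | h
      · exact absurd h.symm (tip_ne_exit hp hq')
      · exact exit_uniq hq hq' h.symm
    · intro e he f hf hfU
      exact hC e he f hf hfU false
  · right
    push Not at hex
    exact ⟨fun p hp => hex _ (chg_tip hp), fun q hq => hex _ (chg_exit hq)⟩

end Pool.Agent.H11.SM
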